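import Pool.Agent.L5helper11.OM.Defs

set_option autoImplicit false

/-! J2: the Fejer sums near a point of continuity from the right. -/

open Finset Filter Topology Complex MeasureTheory

namespace Pool.Agent.L5helper21.OM

open Pool.Agent.L5helper11.OM

/-- the exponential -/
noncomputable def kk (u₁ : ℝ) (m : ℤ) (u : ℝ) : ℂ :=
  Complex.exp (((2 * Real.pi * (m : ℝ) * (u₁ - u) : ℝ) : ℂ) * I)

lemma kk_cont (u₁ : ℝ) (m : ℤ) : Continuous (kk u₁ m) := by
  unfold kk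
  fun_prop

lemma kk_zero (u₁ u : ℝ) : kk u₁ 0 u = 1 := by
  unfold kk
  simp

lemma fc_mul (Φ : ℝ → ℂ) (u₁ : ℝ) (m : ℤ) :
    fc Φ m * Complex.exp (((2 * Real.pi * (m : ℝ) * u₁ : ℝ) : ℂ) * I) =
      ∫ u in (0 : ℝ)..1, Φ u * kk u₁ m u := by
  unfold fc
  rw [← intervalIntegral.integral_mul_const]
  refine intervalIntegral.integral_congr fun u _ => ?_
  show Φ u * Complex.exp (((-(2 * Real.pi * m * u) : ℝ) : ℂ) * I) *
    Complex.exp (((2 * Real.pi * (m : ℝ) * u₁ : ℝ) : ℂ) * I) = Φ u * kk u₁ m u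
  unfold kk
  rw [mul_assoc, ← Complex.exp_add]
  congr 2
  push_cast
  ring

lemma kk_int (u₁ : ℝ) (m : ℤ) : ∫ u in (0 : ℝ)..1, kk u₁ m u = if m = 0 then 1 else 0 := by
  split_ifs with h
  · subst h
    simp only [kk_zero]
    simp
  · have hpi : (Real.pi : ℂ) ≠ 0 := by exact_mod_cast Real.pi_ne_zero
    have hm : (m : ℂ) ≠ 0 := by exact_mod_cast h
    set c : ℂ := -(2 * Real.pi * m * I) with hc
    have hc0 : c ≠ 0 := by
      rw [hc, neg_ne_zero]
      exact mul_ne_zero (mul_ne_zero (mul_ne_zero two_ne_zero hpi) hm) I_ne_zero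
    have h1 : ∀ u : ℝ, kk u₁ m u = Complex.exp (((2 * Real.pi * (m : ℝ) * u₁ : ℝ) : ℂ) * I) *
        Complex.exp (c * u) := by
      intro u
      unfold kk
      rw [← Complex.exp_add]
      congr 1
      rw [hc]
      push_cast
      ring
    simp only [h1]
    rw [intervalIntegral.integral_const_mul, integral_exp_mul_complex hc0]
    have h2 : Complex.exp (c * ((1 : ℝ) : ℂ)) = 1 := by
      have : c * ((1 : ℝ) : ℂ) = ((-m : ℤ) : ℂ) * (2 * Real.pi * I) := by
        rw [hc]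
        push_cast
        ring
      rw [this]
      exact Complex.exp_int_mul_two_pi_mul_I (-m)
    rw [h2]
    simp

/-- the Dirichlet kernel -/
noncomputable def DD (u₁ : ℝ) (N : ℕ) (u : ℝ) : ℂ := ∑ j ∈ range N, kk u₁ j u

lemma kk_sub (u₁ : ℝ) (i j : ℕ) (u : ℝ) :
    kk u₁ ((i : ℤ) - j) u = kk u₁ i u * (starRingEnd ℂ) (kk u₁ j u) := by
  unfold kk
  rw [← Complex.exp_conj, ← Complex.exp_add]
  congr 1
  rw [map_mul, Complex.conj_I, Complex.conj_ofReal]
  push_cast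
  ring

lemma sum_kk (u₁ : ℝ) (N : ℕ) (u : ℝ) :
    ∑ i ∈ range N, ∑ j ∈ range N, kk u₁ ((i : ℤ) - j) u = ((‖DD u₁ N u‖ ^ 2 : ℝ) : ℂ) := by
  have h1 : DD u₁ N u * (starRingEnd ℂ) (DD u₁ N u) = ((‖DD u₁ N u‖ ^ 2 : ℝ) : ℂ) := by
    rw [Complex.mul_conj, Complex.normSq_eq_norm_sq]
  rw [← h1]
  unfold DD
  rw [map_sum, Finset.sum_mul_sum]
  refine Finset.sum_congr rfl fun i _ => Finset.sum_congr rfl fun j _ => ?_
  rw [kk_sub]

lemma DD_cont (u₁ : ℝ) (N : ℕ) : Continuous (DD u₁ N) := by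
  unfold DD
  exact continuous_finsetSum _ fun j _ => kk_cont u₁ j

lemma DD_int (u₁ : ℝ) (N : ℕ) : ∫ u in (0 : ℝ)..1, ‖DD u₁ N u‖ ^ 2 = N := by
  have h1 : (((∫ u in (0 : ℝ)..1, ‖DD u₁ N u‖ ^ 2 : ℝ)) : ℂ) = N := by
    rw [← intervalIntegral.integral_ofReal]
    simp only [← sum_kk]
    rw [intervalIntegral.integral_finsetSum fun i _ =>
      (continuous_finsetSum _ fun j _ => kk_cont u₁ _).intervalIntegrable _ _]
    have h2 : ∀ i ∈ range N, ∫ u in (0 : ℝ)..1, ∑ j ∈ range N, kk u₁ ((i : ℤ) - j) u = 1 := by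
      intro i hi
      rw [intervalIntegral.integral_finsetSum fun j _ => (kk_cont u₁ _).intervalIntegrable _ _]
      simp only [kk_int]
      rw [Finset.sum_eq_single i]
      · simp
      · intro j _ hj
        rw [if_neg]
        intro h
        apply hj
        omega
      · intro h
        exact absurd hi h
    rw [Finset.sum_congr rfl h2]
    simp
  exact_mod_cast h1

lemma kk_pow (u₁ : ℝ) (j : ℕ) (u : ℝ) : kk u₁ j u = (kk u₁ 1 u) ^ j := by
  unfold kk
  rw [← Complex.exp_nat_mul]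
  congr 1
  push_cast
  ring

lemma kk_norm (u₁ : ℝ) (m : ℤ) (u : ℝ) : ‖kk u₁ m u‖ = 1 := by
  unfold kk
  exact Complex.norm_exp_ofReal_mul_I _

lemma DD_bd (u₁ : ℝ) (N : ℕ) (u : ℝ) : ‖DD u₁ N u‖ * ‖kk u₁ 1 u - 1‖ ≤ 2 := by
  rw [← norm_mul]
  have h1 : DD u₁ N u = ∑ j ∈ range N, (kk u₁ 1 u) ^ j := by
    unfold DD
    exact Finset.sum_congr rfl fun j _ => kk_pow u₁ j u
  rw [h1, geom_sum_mul]
  refine (norm_sub_le _ _).trans ?_
  rw [norm_pow, kk_norm, one_pow, norm_one]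
  norm_num

/-- away from `u₁` the kernel is bounded -/
lemma DD_away (u₁ δ : ℝ) (hδ : 0 < δ) (h0 : 0 < u₁) (h1 : u₁ < 1) : ∃ M : ℝ, 0 ≤ M ∧
    ∀ (N : ℕ) (u : ℝ), 0 ≤ u → u ≤ 1 → δ ≤ |u - u₁| → ‖DD u₁ N u‖ ^ 2 ≤ M := by
  have hK : IsCompact {u : ℝ | u ∈ Set.Icc (0 : ℝ) 1 ∧ δ ≤ |u - u₁|} := by
    have h3 : IsClosed {u : ℝ | δ ≤ |u - u₁|} :=
      isClosed_le continuous_const ((continuous_id.sub continuous_const).abs)
    exact isCompact_Icc.inter_right h3
  obtain ⟨c, hc0, hc⟩ := hK.exists_forall_le' (f := fun u => ‖kk u₁ 1 u - 1‖)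
    (((kk_cont u₁ 1).sub continuous_const).norm.continuousOn) (a := 0) (by
      rintro u ⟨⟨hu0, hu1⟩, hu⟩
      rw [norm_pos_iff, sub_ne_zero]
      intro h
      unfold kk at h
      rw [Complex.exp_eq_one_iff] at h
      obtain ⟨n, hn⟩ := h
      have h2 : ((2 * Real.pi * ((1 : ℤ) : ℝ) * (u₁ - u) : ℝ) : ℂ) = (((n : ℝ) * (2 * Real.pi) : ℝ) : ℂ) := by
        apply mul_right_cancel₀ I_ne_zero
        rw [hn]
        push_cast
        ring
      have h3 : 2 * Real.pi * ((1 : ℤ) : ℝ) * (u₁ - u) = (n : ℝ) * (2 * Real.pi) := by exact_mod_cast h2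
      have hpi := Real.pi_pos
      have h4 : u₁ - u = n := by
        have : (2 * Real.pi) * (u₁ - u) = (2 * Real.pi) * n := by
          push_cast at h3
          linarith
        exact mul_left_cancel₀ (by positivity) this
      have h5 : (n : ℝ) < 1 := by rw [← h4]; linarith
      have h6 : (-1 : ℝ) < n := by rw [← h4]; linarith
      have h7 : n < 1 := by exact_mod_cast h5
      have h8 : -1 < n := by exact_mod_cast h6
      have h9 : n = 0 := by omega
      rw [h9] at h4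
      have h10 : u - u₁ = 0 := by
        push_cast at h4
        linarith
      rw [h10, abs_zero] at hu
      linarith)
  refine ⟨(2 / c) ^ 2, by positivity, fun N u hu0 hu1 hu => ?_⟩
  have h2 := hc u ⟨⟨hu0, hu1⟩, hu⟩
  have h3 := DD_bd u₁ N u
  have h4 : ‖DD u₁ N u‖ ≤ 2 / c := by
    rw [le_div_iff₀ hc0]
    exact (mul_le_mul_of_nonneg_left h2 (norm_nonneg _)).trans h3
  exact pow_le_pow_left₀ (norm_nonneg _) h4 2

theorem j2 : J2 := by
  intro Φ A hΦm hΦA u₀ hu0 hu1 hcont ε hε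
  have hA : 0 ≤ A := (norm_nonneg _).trans (hΦA 0)
  -- the interval
  obtain ⟨δ, hδ0, hδε, hδ1, hδ⟩ : ∃ δ : ℝ, 0 < δ ∧ δ < ε ∧ u₀ + δ < 1 ∧
      ∀ u, u₀ ≤ u → u < u₀ + δ → ‖Φ u - Φ u₀‖ ≤ ε / 2 := by
    obtain ⟨r, hr0, hr⟩ := Metric.continuousWithinAt_iff.1 hcont (ε / 2) (by positivity)
    refine ⟨min r (min (ε / 2) ((1 - u₀) / 2)), by
      have : 0 < 1 - u₀ := by linarith
      positivity, ?_, ?_, ?_⟩
    · have h1 := min_le_right r (min (ε / 2) ((1 - u₀) / 2))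
      have h2 := min_le_left (ε / 2) ((1 - u₀) / 2)
      linarith
    · have h1 := min_le_right r (min (ε / 2) ((1 - u₀) / 2))
      have h2 := min_le_right (ε / 2) ((1 - u₀) / 2)
      linarith
    · intro u hu hu'
      have h1 := min_le_left r (min (ε / 2) ((1 - u₀) / 2))
      have h2 := hr (show u ∈ Set.Ici u₀ from hu) (by
        rw [Real.dist_eq, abs_of_nonneg (by linarith)]
        linarith)
      rw [dist_eq_norm] at h2
      exact h2.le
  set u₁ : ℝ := u₀ + δ / 2 with hu₁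
  obtain ⟨M, hM0, hM⟩ := DD_away u₁ (δ / 2) (by positivity) (by linarith) (by linarith)
  obtain ⟨N₀, hN₀⟩ := exists_nat_ge (2 * A * M / (ε / 2))
  refine ⟨u₁, by linarith, by linarith, by linarith, N₀, fun N hN => ?_⟩
  have hΦi : IntervalIntegrable Φ volume 0 1 := by
    rw [intervalIntegrable_iff_integrableOn_Ioc_of_le zero_le_one]
    exact Measure.integrableOn_of_bounded (by simp) hΦm.aestronglyMeasurable
      (Filter.Eventually.of_forall hΦA)
  have e1 : (∑ i ∈ range N, ∑ j ∈ range N, fc Φ ((i : ℤ) - j) *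
      Complex.exp (((2 * Real.pi * (((i : ℤ) - j : ℤ) : ℝ) * u₁ : ℝ) : ℂ) * I)) =
      ∫ u in (0 : ℝ)..1, Φ u * ((‖DD u₁ N u‖ ^ 2 : ℝ) : ℂ) := by
    simp only [fc_mul, ← sum_kk, Finset.mul_sum]
    rw [intervalIntegral.integral_finsetSum]
    · refine Finset.sum_congr rfl fun i _ => ?_
      rw [intervalIntegral.integral_finsetSum]
      exact fun j _ => hΦi.mul_continuousOn (kk_cont u₁ _).continuousOn
    · intro i _
      simp only [← Finset.mul_sum]
      exact hΦi.mul_continuousOn (continuous_finsetSum _ fun j _ => kk_cont u₁ _).continuousOn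
  have hDc : Continuous fun u : ℝ => ((‖DD u₁ N u‖ ^ 2 : ℝ) : ℂ) :=
    Complex.continuous_ofReal.comp ((DD_cont u₁ N).norm.pow 2)
  have e2 : (N : ℂ) * Φ u₀ = ∫ u in (0 : ℝ)..1, Φ u₀ * ((‖DD u₁ N u‖ ^ 2 : ℝ) : ℂ) := by
    rw [intervalIntegral.integral_const_mul, intervalIntegral.integral_ofReal, DD_int]
    push_cast
    ring
  have hI2 : IntervalIntegrable (fun u : ℝ => Φ u₀ * ((‖DD u₁ N u‖ ^ 2 : ℝ) : ℂ)) volume 0 1 :=
    (continuous_const.mul hDc).intervalIntegrable _ _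
  rw [e1, e2, ← intervalIntegral.integral_sub (hΦi.mul_continuousOn hDc.continuousOn) hI2]
  have hg : IntervalIntegrable (fun u : ℝ => ε / 2 * ‖DD u₁ N u‖ ^ 2 + 2 * A * M) volume 0 1 :=
    ((continuous_const.mul ((DD_cont u₁ N).norm.pow 2)).add continuous_const).intervalIntegrable _ _
  refine (intervalIntegral.norm_integral_le_of_norm_le zero_le_one
    (Filter.Eventually.of_forall fun u hu => ?_) hg).trans ?_
  · rw [← sub_mul, norm_mul, Complex.norm_real, Real.norm_eq_abs, abs_of_nonneg (sq_nonneg _)]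
    by_cases h : δ / 2 ≤ |u - u₁|
    · have h1 := hM N u hu.1.le hu.2 h
      have h2 : ‖Φ u - Φ u₀‖ ≤ 2 * A := by
        refine (norm_sub_le _ _).trans ?_
        linarith [hΦA u, hΦA u₀]
      have h3 : ‖Φ u - Φ u₀‖ * ‖DD u₁ N u‖ ^ 2 ≤ 2 * A * M :=
        mul_le_mul h2 h1 (sq_nonneg _) (by positivity)
      have h4 : 0 ≤ ε / 2 * ‖DD u₁ N u‖ ^ 2 := by positivity
      linarith
    · push Not at h
      rw [abs_lt] at h
      have h1 := hδ u (by linarith [h.1]) (by linarith [h.2])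
      have h3 : ‖Φ u - Φ u₀‖ * ‖DD u₁ N u‖ ^ 2 ≤ ε / 2 * ‖DD u₁ N u‖ ^ 2 :=
        mul_le_mul_of_nonneg_right h1 (sq_nonneg _)
      have h4 : 0 ≤ 2 * A * M := by positivity
      linarith
  · have hI3 : IntervalIntegrable (fun u : ℝ => ε / 2 * ‖DD u₁ N u‖ ^ 2) volume 0 1 :=
      (continuous_const.mul ((DD_cont u₁ N).norm.pow 2)).intervalIntegrable _ _
    have hI4 : IntervalIntegrable (fun _ : ℝ => 2 * A * M) volume 0 1 :=
      continuous_const.intervalIntegrable _ _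
    rw [intervalIntegral.integral_add hI3 hI4, intervalIntegral.integral_const_mul, DD_int]
    have h1 : (N₀ : ℝ) ≤ N := by exact_mod_cast hN
    have h2 : 2 * A * M / (ε / 2) ≤ N := hN₀.trans h1
    rw [div_le_iff₀ (by positivity)] at h2
    simp only [intervalIntegral.integral_const, sub_zero, smul_eq_mul, one_mul]
    linarith

end Pool.Agent.L5helper21.OM
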